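import Pool.Agent.Work.MP_2183d4_add.Sharp

/-!
# MP_2183d4_lc: local edge-connectivity augmentation of a hypergraph of rank at most `k` by graph
edges: the largest possible optimum for given `k` and `α` is `min(α, ⌊(α + k)/2⌋) - 1`, while `⌈α/2⌉`
is the obvious lower bound

A hypergraph on the finite vertex set `V` is a family `H : E → Finset V` (repetitions allowed), a
graph with `n` edges is a family `g : Fin n → V × V` with distinct ends.
-/

set_option autoImplicit false

namespace Pool.Agent.Results.MP_2183d4_lc.AdditiveBound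

open Finset

variable {V E : Type} [Fintype V] [DecidableEq V] [Fintype E]

open Classical in
/-- `d_H(X)`: the number of hyperedges meeting both `X` and its complement. -/
noncomputable def cut (H : E → Finset V) (X : Finset V) : ℕ :=
  (univ.filter fun e => (∃ v ∈ H e, v ∈ X) ∧ ∃ v ∈ H e, v ∉ X).card

/-- The local edge-connectivity `λ_H(x,y)`: the least `d_H(X)` over the sets `X` containing `x` but
not `y`. -/
noncomputable def lam (H : E → Finset V) (x y : V) : ℕ :=
  sInf {d | ∃ X : Finset V, x ∈ X ∧ y ∉ X ∧ d = cut H X}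

/-- The hypergraph `H + G`, where `G` is the graph with edge family `g`. -/
def addG (H : E → Finset V) {n : ℕ} (g : Fin n → V × V) : E ⊕ Fin n → Finset V :=
  Sum.elim H fun i => {(g i).1, (g i).2}

/-- The numbers of edges of the graphs `G` with `λ_{H+G}(x,y) ≥ r(x,y)` for all `x ≠ y`. -/
def Sizes (H : E → Finset V) (r : V → V → ℕ) : Set ℕ :=
  {n | ∃ g : Fin n → V × V, (∀ i, (g i).1 ≠ (g i).2) ∧
    ∀ x y, x ≠ y → r x y ≤ lam (addG H g) x y}

/-- `R(X)`: the largest requirement `r(x,y)` with `x` in `X` and `y` not in `X` (`0` if there is no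
such pair). -/
def req (r : V → V → ℕ) (X : Finset V) : ℕ := (X ×ˢ Xᶜ).sup fun z => r z.1 z.2

open Classical in
/-- `α`: the largest value of `∑ max(0, R(X) - d_H(X))` over families of pairwise disjoint sets. -/
noncomputable def alpha (H : E → Finset V) (r : V → V → ℕ) : ℕ :=
  ((univ : Finset (Finset (Finset V))).filter
    (fun F => ∀ A ∈ F, ∀ B ∈ F, A ≠ B → Disjoint A B)).sup fun F => ∑ X ∈ F, (req r X - cut H X)

/-- `C` is a connected component of `H`: a minimal nonempty set with `d_H(C) = 0`. -/
def IsComponent (H : E → Finset V) (C : Finset V) : Prop :=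
  C.Nonempty ∧ cut H C = 0 ∧ ∀ D : Finset V, D ⊂ C → D.Nonempty → cut H D ≠ 0

/-- The instances considered: rank at most `k`, symmetric requirements, no marginal component, that
is every component `C` with `R(C) = 1` has a proper subset with a deficient cut. -/
def Instance (k : ℕ) (H : E → Finset V) (r : V → V → ℕ) : Prop :=
  (∀ e, (H e).card ≤ k) ∧ (∀ x y, r x y = r y x) ∧
    ∀ C, IsComponent H C → req r C = 1 → ∃ X, X ⊂ C ∧ cut H X < req r X

/-- For `k ≥ 3` the least number `N` of edges of a graph whose addition satisfies all requirements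
is at least `⌈α/2⌉` and at most `min(α, ⌊(α + k)/2⌋) - 1` (read as `0` for `α = 0`), for all
hypergraphs `H` of rank at most `k` and all symmetric requirements `r` without marginal components,
and for every value `a ≥ 2` of `α` this upper bound is attained. -/
theorem result (k : ℕ) (hk : 3 ≤ k) :
    (∀ (V E : Type) [Fintype V] [DecidableEq V] [Fintype E] (H : E → Finset V) (r : V → V → ℕ),
      Instance k H r → ∃ N, IsLeast (Sizes H r) N ∧ (alpha H r + 1) / 2 ≤ N ∧
        N ≤ min (alpha H r) ((alpha H r + k) / 2) - 1) ∧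
    ∀ a : ℕ, 2 ≤ a → ∃ (q : ℕ) (H : Bool → Finset (Fin q ⊕ Bool))
      (r : Fin q ⊕ Bool → Fin q ⊕ Bool → ℕ), Instance k H r ∧ alpha H r = a ∧
        IsLeast (Sizes H r) (min a ((a + k) / 2) - 1) := by
  constructor
  · intro V E _ _ _ H r h
    exact Pool.Agent.Work.MP_2183d4_add.final k hk V E H r h.1 h.2.1 h.2.2
  · intro a ha
    obtain ⟨q, c, h1, h2, h3, h4⟩ := Pool.Agent.Work.MP_2183d4_add.sharp k a hk ha
    exact ⟨q, Pool.Agent.Work.MP_2183d4_add.HH q, Pool.Agent.Work.MP_2183d4_add.rr q c,
      ⟨h1, Pool.Agent.Work.MP_2183d4_add.rr_symm q c, h3⟩, h2, h4⟩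

end Pool.Agent.Results.MP_2183d4_lc.AdditiveBound
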