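import Pool.Agent.Work.MP_2183d4_lc_66.FINAL

/-!
# MP_2183d4_lc: local edge-connectivity augmentation of a hypergraph of bounded rank by graph edges

The optimum is `⌈α/2⌉` when the rank and the unsatisfied requirements are bounded and `α` is large.

A hypergraph on the finite vertex set `V` is a family `H : E → Finset V` (repetitions allowed), a
graph with `n` edges is a family `g : Fin n → V × V` with distinct ends.
-/

set_option autoImplicit false

namespace Pool.Agent.Results.MP_2183d4_lc.BoundedRequirement

open Finset

variable {V E : Type} [Fintype V] [DecidableEq V] [Fintype E]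

open Classical in
/-- `d_H(X)`: the number of hyperedges meeting both `X` and its complement. -/
noncomputable def cut (H : E → Finset V) (X : Finset V) : ℕ :=
  (univ.filter fun e => (∃ v ∈ H e, v ∈ X) ∧ ∃ v ∈ H e, v ∉ X).card

/-- The local edge-connectivity `λ_H(x,y)`: the least `d_H(X)` over the sets `X` containing `x` but
not `y`. -/
noncomputable def lam (H : E → Finset V) (x y : V) : ℕ :=
  sInf {d | ∃ X : Finset V, x ∈ X ∧ y ∉ X ∧ d = cut H X}

/-- The hypergraph `H + G`, where `G` is the graph with edge family `g`. -/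
def addG (H : E → Finset V) {n : ℕ} (g : Fin n → V × V) : E ⊕ Fin n → Finset V :=
  Sum.elim H fun i => {(g i).1, (g i).2}

/-- The numbers of edges of the graphs `G` with `λ_{H+G}(x,y) ≥ r(x,y)` for all `x ≠ y`. -/
def Sizes (H : E → Finset V) (r : V → V → ℕ) : Set ℕ :=
  {n | ∃ g : Fin n → V × V, (∀ i, (g i).1 ≠ (g i).2) ∧
    ∀ x y, x ≠ y → r x y ≤ lam (addG H g) x y}

/-- `R(X)`: the largest requirement `r(x,y)` with `x` in `X` and `y` not in `X` (`0` if there is no
such pair). -/
def req (r : V → V → ℕ) (X : Finset V) : ℕ := (X ×ˢ Xᶜ).sup fun z => r z.1 z.2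

open Classical in
/-- `α`: the largest value of `∑ max(0, R(X) - d_H(X))` over families of pairwise disjoint sets. -/
noncomputable def alpha (H : E → Finset V) (r : V → V → ℕ) : ℕ :=
  ((univ : Finset (Finset (Finset V))).filter
    (fun F => ∀ A ∈ F, ∀ B ∈ F, A ≠ B → Disjoint A B)).sup fun F => ∑ X ∈ F, (req r X - cut H X)

/-- `C` is a connected component of `H`: a minimal nonempty set with `d_H(C) = 0`. -/
def IsComponent (H : E → Finset V) (C : Finset V) : Prop :=
  C.Nonempty ∧ cut H C = 0 ∧ ∀ D : Finset V, D ⊂ C → D.Nonempty → cut H D ≠ 0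

open Classical in
/-- `c`: the number of components of `H` that contain a set `X` with `d_H(X) < R(X)`. -/
noncomputable def numDem (H : E → Finset V) (r : V → V → ℕ) : ℕ :=
  ((univ : Finset (Finset V)).filter fun C =>
    IsComponent H C ∧ ∃ X : Finset V, X ⊆ C ∧ cut H X < req r X).card

/-- For all `k` and `R0` there is `M0` such that, for hypergraphs `H` of rank at most `k` and
requirements that are at most `R0` or already satisfied, the least number `N` of edges of a graph
whose addition to `H` satisfies all requirements is at most `α`, and is exactly `⌈α/2⌉` if there is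
no marginal component and `α ≥ 2c + M0`. -/
theorem result (k R0 : ℕ) : ∃ M0 : ℕ, ∀ (V E : Type) [Fintype V] [DecidableEq V] [Fintype E]
    (H : E → Finset V) (r : V → V → ℕ), (∀ e, (H e).card ≤ k) → (∀ x y, r x y = r y x) →
    (∀ x y, x ≠ y → r x y ≤ R0 ∨ r x y ≤ lam H x y) →
    ∃ N, IsLeast (Sizes H r) N ∧ N ≤ alpha H r ∧
      ((∀ C, IsComponent H C → req r C = 1 → ∃ X, X ⊂ C ∧ cut H X < req r X) →
        2 * numDem H r + M0 ≤ alpha H r → N = (alpha H r + 1) / 2) :=
  Pool.Agent.Work.MP_2183d4_lc_66.final k R0

end Pool.Agent.Results.MP_2183d4_lc.BoundedRequirement
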